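import Mathlib

set_option autoImplicit false

/-! # Triangle-free 7-apex graphs are not 3-colourable with bounded clustering -/

namespace Pool.Agent.Results.MP_01d970_co.SevenApex

open Finset SimpleGraph

/-- the graph `G` has a `K_n` minor: pairwise disjoint and pairwise adjacent connected sets
`B 0, …, B (n - 1)` -/
def HasKMinor {V : Type} (n : ℕ) (G : SimpleGraph V) : Prop :=
  ∃ B : Fin n → Set V, (∀ i, (G.induce (B i)).Connected) ∧
    (∀ i j, i ≠ j → Disjoint (B i) (B j)) ∧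
    (∀ i j, i ≠ j → ∃ u ∈ B i, ∃ w ∈ B j, G.Adj u w)

/-- the graph `G` has a `K_{3,3}` minor -/
def HasK33Minor {V : Type} (G : SimpleGraph V) : Prop :=
  ∃ B : Fin 3 ⊕ Fin 3 → Set V, (∀ i, (G.induce (B i)).Connected) ∧
    (∀ i j, i ≠ j → Disjoint (B i) (B j)) ∧
    (∀ i j : Fin 3, ∃ u ∈ B (Sum.inl i), ∃ w ∈ B (Sum.inr j), G.Adj u w)

/-- planarity (Wagner's criterion) -/
def IsPlanar {V : Type} (G : SimpleGraph V) : Prop :=
  ¬ HasKMinor 5 G ∧ ¬ HasK33Minor G

/-- the graph of the monochromatic edges of the colouring `f` -/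
def mono {V C : Type} (G : SimpleGraph V) (f : V → C) : SimpleGraph V where
  Adj x y := G.Adj x y ∧ f x = f y
  symm := ⟨fun _ _ h => ⟨h.1.symm, h.2.symm⟩⟩
  loopless := ⟨fun _ h => G.loopless.irrefl _ h.1⟩

/-- the colouring `f` has clustering at most `c`: every monochromatic component has at most `c`
vertices -/
def Clustering {V C : Type} (G : SimpleGraph V) (f : V → C) (c : ℕ) : Prop :=
  ∀ v, {u | (mono G f).Reachable v u}.ncard ≤ c

/-! ### Graphs of treewidth at most two -/

/-- `G` is contained in a chordal graph with clique number at most three -/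
def TW2 {V : Type} (G : SimpleGraph V) : Prop :=
  ∃ (H : SimpleGraph V) (r : V → ℕ), G ≤ H ∧ (∀ x y, H.Adj x y → r x ≠ r y) ∧
    (∀ v a b, H.Adj v a → H.Adj v b → r a < r v → r b < r v → a ≠ b → H.Adj a b) ∧
    ∀ v a b c, H.Adj v a → H.Adj v b → H.Adj v c → r a < r v → r b < r v → r c < r v →
      a = b ∨ a = c ∨ b = c

/-- cut form of connectedness -/
def CutConn {V : Type} (G : SimpleGraph V) (B : Set V) : Prop :=
  B.Nonempty ∧ ∀ S : Set V, (B ∩ S).Nonempty → (B \ S).Nonempty →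
    ∃ x ∈ B ∩ S, ∃ y ∈ B \ S, G.Adj x y

theorem cutConn_of_connected {V : Type} {G : SimpleGraph V} {B : Set V}
    (h : (G.induce B).Connected) : CutConn G B := by
  refine ⟨?_, ?_⟩
  · obtain ⟨x⟩ := h.nonempty
    exact ⟨x.1, x.2⟩
  · rintro S ⟨x, hxB, hxS⟩ ⟨y, hyB, hyS⟩
    obtain ⟨p⟩ := h.preconnected ⟨x, hxB⟩ ⟨y, hyB⟩
    obtain ⟨d, -, hd1, hd2⟩ := p.exists_boundary_dart {z | z.1 ∈ S} hxS hyS
    exact ⟨d.fst.1, ⟨d.fst.2, hd1⟩, d.snd.1, ⟨d.snd.2, hd2⟩, d.adj⟩

/-- the cut form of a `K_4` minor -/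
def Model {V : Type} (G : SimpleGraph V) (B : Fin 4 → Set V) : Prop :=
  (∀ i, CutConn G (B i)) ∧ (∀ i j, i ≠ j → Disjoint (B i) (B j)) ∧
    (∀ i j, i ≠ j → ∃ u ∈ B i, ∃ w ∈ B j, G.Adj u w)

theorem Model.mono {V : Type} {G H : SimpleGraph V} (hGH : G ≤ H) {B : Fin 4 → Set V}
    (h : Model G B) : Model H B := by
  refine ⟨fun i => ⟨(h.1 i).1, fun S h1 h2 => ?_⟩, h.2.1, fun i j hij => ?_⟩
  · obtain ⟨x, hx, y, hy, hxy⟩ := (h.1 i).2 S h1 h2
    exact ⟨x, hx, y, hy, hGH hxy⟩
  · obtain ⟨x, hx, y, hy, hxy⟩ := h.2.2 i j hij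
    exact ⟨x, hx, y, hy, hGH hxy⟩

theorem no_model {V : Type} [Finite V] (H : SimpleGraph V) (r : V → ℕ)
    (hr : ∀ x y, H.Adj x y → r x ≠ r y)
    (hcl : ∀ v a b, H.Adj v a → H.Adj v b → r a < r v → r b < r v → a ≠ b → H.Adj a b)
    (h2 : ∀ v a b c, H.Adj v a → H.Adj v b → H.Adj v c → r a < r v → r b < r v → r c < r v →
      a = b ∨ a = c ∨ b = c) :
    ∀ n : ℕ, ∀ B : Fin 4 → Set V, (⋃ i, B i).ncard = n → ¬ Model H B := by
  intro n
  induction n using Nat.strong_induction_on with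
  | _ n ih =>
    intro B hB hM
    -- the vertex of largest rank
    have hne : (⋃ i, B i).Nonempty := by
      obtain ⟨x, hx⟩ := (hM.1 0).1
      exact ⟨x, Set.mem_iUnion.2 ⟨0, hx⟩⟩
    obtain ⟨v, hv, hmax⟩ := Set.exists_max_image (⋃ i, B i) r (Set.toFinite _) hne
    obtain ⟨i₀, hi₀⟩ := Set.mem_iUnion.1 hv
    have hlow : ∀ j x, x ∈ B j → H.Adj v x → r x < r v := fun j x hx hadj =>
      lt_of_le_of_ne (hmax x (Set.mem_iUnion.2 ⟨j, hx⟩)) (hr v x hadj).symm
    have hdisj : ∀ j, j ≠ i₀ → v ∉ B j := fun j hj hvj =>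
      Set.disjoint_left.1 (hM.2.1 j i₀ hj) hvj hi₀
    by_cases hsing : B i₀ = {v}
    · -- `v` has neighbours in the three other sets
      have hnb : ∀ j, j ≠ i₀ → ∃ w ∈ B j, H.Adj v w := by
        intro j hj
        obtain ⟨u, hu, w, hw, huw⟩ := hM.2.2 i₀ j hj.symm
        rw [hsing] at hu
        rw [Set.mem_singleton_iff] at hu
        subst hu
        exact ⟨w, hw, huw⟩
      obtain ⟨j1, j2, j3, h1, h2', h3, h12, h13, h23⟩ : ∃ j1 j2 j3 : Fin 4, j1 ≠ i₀ ∧ j2 ≠ i₀ ∧
          j3 ≠ i₀ ∧ j1 ≠ j2 ∧ j1 ≠ j3 ∧ j2 ≠ j3 := by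
        clear hi₀ hdisj hsing hnb
        revert i₀
        decide
      obtain ⟨a, ha, hva⟩ := hnb j1 h1
      obtain ⟨b, hb, hvb⟩ := hnb j2 h2'
      obtain ⟨c, hc, hvc⟩ := hnb j3 h3
      rcases h2 v a b c hva hvb hvc (hlow _ _ ha hva) (hlow _ _ hb hvb) (hlow _ _ hc hvc) with
        h | h | h
      · subst h; exact Set.disjoint_left.1 (hM.2.1 j1 j2 h12) ha hb
      · subst h; exact Set.disjoint_left.1 (hM.2.1 j1 j3 h13) ha hc
      · subst h; exact Set.disjoint_left.1 (hM.2.1 j2 j3 h23) hb hc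
    · -- delete `v`
      obtain ⟨z, hz, hzv⟩ : ∃ z ∈ B i₀, z ≠ v := by
        by_contra hcon
        push Not at hcon
        exact hsing (Set.eq_singleton_iff_unique_mem.2 ⟨hi₀, hcon⟩)
      -- `v` has a neighbour in `B i₀`
      obtain ⟨z', hz', hvz'⟩ : ∃ z' ∈ B i₀, H.Adj v z' := by
        obtain ⟨x, ⟨hx, hxv⟩, y, ⟨hy, hyv⟩, hxy⟩ := (hM.1 i₀).2 {v} ⟨v, hi₀, rfl⟩ ⟨z, hz, hzv⟩
        rw [Set.mem_singleton_iff] at hxv
        subst hxv
        exact ⟨y, hy, hxy⟩
      have hz'v : z' ≠ v := fun h => H.loopless.irrefl _ (h ▸ hvz')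
      let B' : Fin 4 → Set V := fun i => B i \ {v}
      have hB'sub : ∀ i, B' i ⊆ B i := fun i => Set.sdiff_subset
      have hB'ne : ∀ j, j ≠ i₀ → B' j = B j := fun j hj =>
        Set.sdiff_singleton_eq_self (hdisj j hj)
      refine ih _ ?_ B' rfl ⟨?_, ?_, ?_⟩
      · rw [← hB]
        apply Set.ncard_lt_ncard
        · refine ⟨?_, fun h => ?_⟩
          · exact Set.iUnion_mono hB'sub
          · obtain ⟨i, hi⟩ := Set.mem_iUnion.1 (h hv)
            exact hi.2 rfl
        · exact Set.toFinite _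
      · intro i
        by_cases hi : i = i₀
        · subst hi
          refine ⟨⟨z, hz, hzv⟩, ?_⟩
          rintro S ⟨x, ⟨hxB, hxv⟩, hxS⟩ ⟨y, ⟨hyB, hyv⟩, hyS⟩
          rw [Set.mem_singleton_iff] at hxv hyv
          -- first cut: `S` without `v`
          obtain ⟨s, ⟨hsB, hsS, hsv⟩, t, ⟨htB, htS⟩, hst⟩ :=
            (hM.1 i).2 (S \ {v}) ⟨x, hxB, hxS, hxv⟩ ⟨y, hyB, fun h => hyS h.1⟩
          rw [Set.mem_singleton_iff] at hsv
          by_cases htv : t = v
          · -- second cut: `S` with `v`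
            obtain ⟨s', ⟨hsB', hsS'⟩, t', ⟨htB', htS'⟩, hst'⟩ :=
              (hM.1 i).2 (S ∪ {v}) ⟨x, hxB, Or.inl hxS⟩ ⟨y, hyB, fun h => h.elim hyS hyv⟩
            have ht'S : t' ∉ S := fun h => htS' (Or.inl h)
            have ht'v : t' ≠ v := fun h => htS' (Or.inr h)
            by_cases hs'v : s' = v
            · subst htv
              subst hs'v
              refine ⟨s, ⟨⟨hsB, hsv⟩, hsS⟩, t', ⟨⟨htB', ht'v⟩, ht'S⟩, ?_⟩
              refine hcl _ s t' hst.symm hst' (hlow _ _ hsB hst.symm) (hlow _ _ htB' hst') ?_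
              intro h
              exact ht'S (h ▸ hsS)
            · exact ⟨s', ⟨⟨hsB', hs'v⟩, hsS'.resolve_right hs'v⟩, t', ⟨⟨htB', ht'v⟩, ht'S⟩, hst'⟩
          · refine ⟨s, ⟨⟨hsB, hsv⟩, hsS⟩, t, ⟨⟨htB, htv⟩, fun h => htS ⟨h, htv⟩⟩, hst⟩
        · rw [hB'ne i hi]
          exact hM.1 i
      · intro i j hij
        exact (hM.2.1 i j hij).mono (hB'sub i) (hB'sub j)
      · -- adjacency
        have key : ∀ j, j ≠ i₀ → ∃ u ∈ B' i₀, ∃ w ∈ B' j, H.Adj u w := by
          intro j hj
          rw [hB'ne j hj]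
          obtain ⟨u, hu, w, hw, huw⟩ := hM.2.2 i₀ j hj.symm
          by_cases huv : u = v
          · subst huv
            refine ⟨z', ⟨hz', hz'v⟩, w, hw, ?_⟩
            refine hcl _ z' w hvz' huw (hlow _ _ hz' hvz') (hlow _ _ hw huw) ?_
            intro h
            subst h
            exact Set.disjoint_left.1 (hM.2.1 j i₀ hj) hw hz'
          · exact ⟨u, ⟨hu, huv⟩, w, hw, huw⟩
        intro i j hij
        by_cases hi : i = i₀
        · subst hi
          exact key j hij.symm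
        · by_cases hj : j = i₀
          · subst hj
            obtain ⟨u, hu, w, hw, huw⟩ := key i hi
            exact ⟨w, hw, u, hu, huw.symm⟩
          · rw [hB'ne i hi, hB'ne j hj]
            exact hM.2.2 i j hij

theorem TW2.no_K4 {V : Type} [Finite V] {G : SimpleGraph V} (h : TW2 G) : ¬ HasKMinor 4 G := by
  rintro ⟨B, h1, h2, h3⟩
  obtain ⟨H, r, hGH, hr, hcl, h2'⟩ := h
  have hM : Model G B := ⟨fun i => cutConn_of_connected (h1 i), h2, h3⟩
  exact no_model H r hr hcl h2' _ B rfl (hM.mono hGH)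

/-- the union of two adjacent connected sets is connected -/
theorem CutConn.union {V : Type} {G : SimpleGraph V} {A B : Set V} (hA : CutConn G A)
    (hB : CutConn G B) (hAB : ∃ x ∈ A, ∃ y ∈ B, G.Adj x y) : CutConn G (A ∪ B) := by
  refine ⟨hA.1.mono Set.subset_union_left, ?_⟩
  intro S h1 h2
  by_cases hA1 : (A ∩ S).Nonempty
  · by_cases hA2 : (A \ S).Nonempty
    · obtain ⟨x, hx, y, hy, hxy⟩ := hA.2 S hA1 hA2
      exact ⟨x, ⟨Or.inl hx.1, hx.2⟩, y, ⟨Or.inl hy.1, hy.2⟩, hxy⟩
    · -- `A ⊆ S`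
      have hAS : A ⊆ S := fun x hx => by_contra fun hxS => hA2 ⟨x, hx, hxS⟩
      by_cases hB1 : (B ∩ S).Nonempty
      · have hB2 : (B \ S).Nonempty := by
          obtain ⟨y, hy, hyS⟩ := h2
          exact ⟨y, hy.resolve_left (fun h => hyS (hAS h)), hyS⟩
        obtain ⟨x, hx, y, hy, hxy⟩ := hB.2 S hB1 hB2
        exact ⟨x, ⟨Or.inr hx.1, hx.2⟩, y, ⟨Or.inr hy.1, hy.2⟩, hxy⟩
      · obtain ⟨x, hx, y, hy, hxy⟩ := hAB
        exact ⟨x, ⟨Or.inl hx, hAS hx⟩, y, ⟨Or.inr hy, fun h => hB1 ⟨y, hy, h⟩⟩, hxy⟩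
  · -- `A ∩ S = ∅`
    have hAS : ∀ x ∈ A, x ∉ S := fun x hx hxS => hA1 ⟨x, hx, hxS⟩
    have hB1 : (B ∩ S).Nonempty := by
      obtain ⟨y, hy, hyS⟩ := h1
      exact ⟨y, hy.resolve_left (fun h => hAS y h hyS), hyS⟩
    by_cases hB2 : (B \ S).Nonempty
    · obtain ⟨x, hx, y, hy, hxy⟩ := hB.2 S hB1 hB2
      exact ⟨x, ⟨Or.inr hx.1, hx.2⟩, y, ⟨Or.inr hy.1, hy.2⟩, hxy⟩
    · have hBS : B ⊆ S := fun x hx => by_contra fun hxS => hB2 ⟨x, hx, hxS⟩
      obtain ⟨x, hx, y, hy, hxy⟩ := hAB
      exact ⟨y, ⟨Or.inr hy, hBS hy⟩, x, ⟨Or.inl hx, hAS x hx⟩, hxy.symm⟩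

theorem TW2.isPlanar {V : Type} [Finite V] {G : SimpleGraph V} (h : TW2 G) : IsPlanar G := by
  obtain ⟨H, r, hGH, hr, hcl, h2'⟩ := h
  constructor
  · rintro ⟨B, h1, h2, h3⟩
    have hM : Model G (fun i => B (Fin.castSucc i)) :=
      ⟨fun i => cutConn_of_connected (h1 _), fun i j hij => h2 _ _ (fun h => hij
        (Fin.castSucc_injective _ h)), fun i j hij => h3 _ _ (fun h => hij
        (Fin.castSucc_injective _ h))⟩
    exact no_model H r hr hcl h2' _ _ rfl (hM.mono hGH)
  · rintro ⟨B, h1, h2, h3⟩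
    have h1' : ∀ i, CutConn G (B i) := fun i => cutConn_of_connected (h1 i)
    have hM : Model G ![B (.inl 0) ∪ B (.inr 0), B (.inl 1) ∪ B (.inr 1), B (.inl 2),
        B (.inr 2)] := by
      refine ⟨?_, ?_, ?_⟩
      · intro i
        fin_cases i
        · exact (h1' _).union (h1' _) (h3 0 0)
        · exact (h1' _).union (h1' _) (h3 1 1)
        · exact h1' _
        · exact h1' _
      · have hd : ∀ i j, i ≠ j → Disjoint (B i) (B j) := h2
        intro i j hij
        fin_cases i <;> fin_cases j <;>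
          first
            | exact absurd rfl hij
            | (simp only [Fin.zero_eta, Fin.mk_one, Fin.reduceFinMk, Matrix.cons_val,
                Set.disjoint_union_left, Set.disjoint_union_right]
               refine ⟨⟨hd _ _ (by simp), hd _ _ (by simp)⟩,
                 hd _ _ (by simp), hd _ _ (by simp)⟩)
            | (simp only [Fin.zero_eta, Fin.mk_one, Fin.reduceFinMk, Matrix.cons_val,
                Set.disjoint_union_left, Set.disjoint_union_right]
               refine ⟨hd _ _ (by simp), hd _ _ (by simp)⟩)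
            | (simp only [Fin.zero_eta, Fin.mk_one, Fin.reduceFinMk, Matrix.cons_val]
               exact hd _ _ (by simp))
      · have key : ∀ i j : Fin 4, i < j → ∃ u ∈ ![B (.inl 0) ∪ B (.inr 0),
            B (.inl 1) ∪ B (.inr 1), B (.inl 2), B (.inr 2)] i, ∃ w ∈ ![B (.inl 0) ∪ B (.inr 0),
            B (.inl 1) ∪ B (.inr 1), B (.inl 2), B (.inr 2)] j, G.Adj u w := by
          intro i j hij
          fin_cases i <;> fin_cases j <;> first | exact absurd hij (by decide) | skip
          · obtain ⟨u, hu, w, hw, h⟩ := h3 0 1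
            exact ⟨u, Or.inl hu, w, Or.inr hw, h⟩
          · obtain ⟨u, hu, w, hw, h⟩ := h3 2 0
            exact ⟨w, Or.inr hw, u, hu, h.symm⟩
          · obtain ⟨u, hu, w, hw, h⟩ := h3 0 2
            exact ⟨u, Or.inl hu, w, hw, h⟩
          · obtain ⟨u, hu, w, hw, h⟩ := h3 2 1
            exact ⟨w, Or.inr hw, u, hu, h.symm⟩
          · obtain ⟨u, hu, w, hw, h⟩ := h3 1 2
            exact ⟨u, Or.inl hu, w, hw, h⟩
          · obtain ⟨u, hu, w, hw, h⟩ := h3 2 2
            exact ⟨u, hu, w, hw, h⟩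
        intro i j hij
        rcases lt_or_gt_of_ne hij with h | h
        · exact key i j h
        · obtain ⟨u, hu, w, hw, h⟩ := key j i h
          exact ⟨w, hw, u, hu, h.symm⟩
    exact no_model H r hr hcl h2' _ _ rfl (hM.mono hGH)

/-! ### The construction -/

/-- the vertices of the gadget: `inl false` is `u`, `inl true` is `v`, `inr (inl j)` is `w_j`,
`inr (inr (inl i))` is `x_i`, `inr (inr (inr (j, i)))` is `y_{j,i}` -/
abbrev QV (c : ℕ) : Type := Bool ⊕ (Fin c ⊕ (Fin (2 * c) ⊕ (Fin c × Fin (2 * c))))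

/-- the edges of the gadget, oriented towards the vertex of lower rank -/
def QE {c : ℕ} : QV c → QV c → Prop
  | .inr (.inl _), .inl b => b = false
  | .inr (.inr (.inl _)), .inl _ => True
  | .inr (.inr (.inr _)), .inl b => b = true
  | .inr (.inr (.inr p)), .inr (.inl j) => p.1 = j
  | _, _ => False

/-- the edges of the chordal supergraph, oriented towards the vertex of lower rank -/
def HE {c : ℕ} : QV c → QV c → Prop
  | .inl a, .inl b => a = true ∧ b = false
  | .inr (.inl _), .inl _ => True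
  | .inr (.inr (.inl _)), .inl _ => True
  | .inr (.inr (.inr _)), .inl b => b = true
  | .inr (.inr (.inr p)), .inr (.inl j) => p.1 = j
  | _, _ => False

/-- the rank -/
def rk {c : ℕ} : QV c → ℕ
  | .inl false => 0
  | .inl true => 1
  | .inr (.inl _) => 2
  | .inr (.inr (.inl _)) => 2
  | .inr (.inr (.inr _)) => 3

/-- a proper 3-colouring of the gadget -/
def cl {c : ℕ} : QV c → Fin 3
  | .inl _ => 0
  | .inr (.inl _) => 1
  | .inr (.inr (.inl _)) => 1
  | .inr (.inr (.inr _)) => 2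

theorem QE_HE {c : ℕ} {p q : QV c} (h : QE p q) : HE p q := by
  rcases p with (_ | _) | p | p | p <;> rcases q with (_ | _) | q | q | q <;>
    simp_all [QE, HE]

theorem HE_rk {c : ℕ} {p q : QV c} (h : HE p q) : rk q < rk p := by
  rcases p with (_ | _) | p | p | p <;> rcases q with (_ | _) | q | q | q <;>
    simp_all [HE, rk]

theorem QE_cl {c : ℕ} {p q : QV c} (h : QE p q) : cl p ≠ cl q := by
  rcases p with (_ | _) | p | p | p <;> rcases q with (_ | _) | q | q | q <;>
    simp_all [QE, cl]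

theorem HE_clique {c : ℕ} {p a b : QV c} (ha : HE p a) (hb : HE p b) (hab : a ≠ b) :
    HE a b ∨ HE b a := by
  rcases p with (_ | _) | p | p | p <;> rcases a with (_ | _) | a | a | a <;>
    rcases b with (_ | _) | b | b | b <;> simp_all [HE]

theorem HE_two {c : ℕ} {p a b d : QV c} (ha : HE p a) (hb : HE p b) (hd : HE p d) :
    a = b ∨ a = d ∨ b = d := by
  rcases p with (_ | _) | p | p | p <;> rcases a with (_ | _) | a | a | a <;>
    rcases b with (_ | _) | b | b | b <;> rcases d with (_ | _) | d | d | d <;>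
    simp_all [HE]

/-- there is no triangle in the gadget -/
theorem QE_tri {c : ℕ} {p q s : QV c} (h1 : QE p q) (h2 : QE p s) (h3 : QE q s) : False := by
  rcases p with (_ | _) | p | p | p <;> rcases q with (_ | _) | q | q | q <;>
    rcases s with (_ | _) | s | s | s <;> simp_all [QE]

/-- the vertices of the graph: seven apex vertices, and `3 c` copies of the gadget for each
injection of `{0, 1, 2}` into the set of apex vertices -/
abbrev VV (c : ℕ) : Type := Fin 7 ⊕ (((Fin 3 ↪ Fin 7) × Fin (3 * c)) × QV c)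

/-- adjacency: the copies are disjoint, and the apex vertex `T i` is joined to the vertices of
class `i` of the copies indexed by `T` -/
def VAdj {c : ℕ} : VV c → VV c → Prop
  | .inl _, .inl _ => False
  | .inl a, .inr q => q.1.1 (cl q.2) = a
  | .inr q, .inl a => q.1.1 (cl q.2) = a
  | .inr p, .inr q => p.1 = q.1 ∧ (QE p.2 q.2 ∨ QE q.2 p.2)

/-- the graph -/
def GG (c : ℕ) : SimpleGraph (VV c) where
  Adj := VAdj
  symm := ⟨by
    rintro (a | p) (b | q) h
    · exact h
    · exact h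
    · exact h
    · exact ⟨h.1.symm, h.2.symm⟩⟩
  loopless := ⟨by
    rintro (a | p) h
    · exact h
    · rcases h.2 with h | h <;> exact QE_cl h rfl⟩

theorem GG_triangle {c : ℕ} {x y z : VV c} (h1 : VAdj x y) (h2 : VAdj x z) (h3 : VAdj y z) :
    False := by
  have hapex : ∀ (a : Fin 7) (p q : ((Fin 3 ↪ Fin 7) × Fin (3 * c)) × QV c),
      p.1.1 (cl p.2) = a → q.1.1 (cl q.2) = a → VAdj (.inr p : VV c) (.inr q) → False := by
    rintro a p q hp hq ⟨hpq, h⟩
    rw [← hq, hpq] at hp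
    have h4 := q.1.1.injective hp
    rcases h with h | h
    · exact QE_cl h h4
    · exact QE_cl h h4.symm
  rcases x with a | p <;> rcases y with b | q <;> rcases z with d | s
  · exact h1
  · exact h1
  · exact h2
  · exact hapex a q s h1 h2 h3
  · exact h3
  · exact hapex b p s h1 h3 h2
  · exact hapex d p q h2 h3 h1
  · obtain ⟨-, h1⟩ := h1
    obtain ⟨-, h2⟩ := h2
    obtain ⟨-, h3⟩ := h3
    rcases h1 with h1 | h1 <;> rcases h2 with h2 | h2 <;> rcases h3 with h3 | h3
    · exact QE_tri h1 h2 h3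
    · exact QE_tri h2 h1 h3
    · have := HE_rk (QE_HE h1); have := HE_rk (QE_HE h2); have := HE_rk (QE_HE h3); omega
    · exact QE_tri h2 h3 h1
    · exact QE_tri h1 h3 h2
    · have := HE_rk (QE_HE h1); have := HE_rk (QE_HE h2); have := HE_rk (QE_HE h3); omega
    · exact QE_tri h3 h1 h2
    · exact QE_tri h3 h2 h1

theorem GG_cliqueFree (c : ℕ) : (GG c).CliqueFree 3 := by
  classical
  intro t ht
  rw [is3Clique_iff] at ht
  obtain ⟨x, y, z, h1, h2, h3, -⟩ := ht
  exact GG_triangle h1 h2 h3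

/-- the apex vertices -/
def apex (c : ℕ) : Finset (VV c) := univ.map ⟨Sum.inl, Sum.inl_injective⟩

theorem card_apex (c : ℕ) : (apex c).card = 7 := by
  rw [apex, card_map]
  simp

theorem GG_TW2 (c : ℕ) : TW2 ((GG c).induce {x | x ∉ apex c}) := by
  have hdec : ∀ x : {x : VV c | x ∉ apex c}, ∃ p, x.1 = Sum.inr p := by
    rintro ⟨x, hx⟩
    rcases x with a | p
    · exact absurd (mem_map.2 ⟨a, mem_univ a, rfl⟩) hx
    · exact ⟨p, rfl⟩
  choose dc hdc using hdec
  have hinj : Function.Injective dc := by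
    intro x y h
    apply Subtype.ext
    rw [hdc, hdc, h]
  let H : SimpleGraph {x : VV c | x ∉ apex c} :=
    { Adj := fun x y => (dc x).1 = (dc y).1 ∧ (HE (dc x).2 (dc y).2 ∨ HE (dc y).2 (dc x).2)
      symm := ⟨fun x y h => ⟨h.1.symm, h.2.symm⟩⟩
      loopless := ⟨fun x h => by
        rcases h.2 with h | h <;> exact lt_irrefl _ (HE_rk h)⟩ }
  have hlow : ∀ x y, H.Adj x y → rk (dc y).2 < rk (dc x).2 →
      (dc x).1 = (dc y).1 ∧ HE (dc x).2 (dc y).2 := by
    rintro x y ⟨h1, h2⟩ h3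
    refine ⟨h1, h2.resolve_right (fun h => ?_)⟩
    have := HE_rk h
    omega
  refine ⟨H, fun x => rk (dc x).2, ?_, ?_, ?_, ?_⟩
  · intro x y hxy
    have h : VAdj x.1 y.1 := hxy
    rw [hdc x, hdc y] at h
    exact ⟨h.1, h.2.imp QE_HE QE_HE⟩
  · rintro x y ⟨-, h⟩
    rcases h with h | h
    · exact (HE_rk h).ne'
    · exact (HE_rk h).ne
  · intro v a b hva hvb hra hrb hab
    obtain ⟨h1, h2⟩ := hlow v a hva hra
    obtain ⟨h3, h4⟩ := hlow v b hvb hrb
    refine ⟨h1.symm.trans h3, HE_clique h2 h4 (fun h => hab (hinj ?_))⟩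
    exact Prod.ext (h1.symm.trans h3) h
  · intro v a b d hva hvb hvd hra hrb hrd
    obtain ⟨h1, h2⟩ := hlow v a hva hra
    obtain ⟨h3, h4⟩ := hlow v b hvb hrb
    obtain ⟨h5, h6⟩ := hlow v d hvd hrd
    rcases HE_two h2 h4 h6 with h | h | h
    · exact Or.inl (hinj (Prod.ext (h1.symm.trans h3) h))
    · exact Or.inr (Or.inl (hinj (Prod.ext (h1.symm.trans h5) h)))
    · exact Or.inr (Or.inr (hinj (Prod.ext (h3.symm.trans h5) h)))

/-! ### Colourings of bounded clustering -/

theorem card_lt_of_clustering {V C : Type} [Finite V] {G : SimpleGraph V} {f : V → C} {c : ℕ}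
    (h : Clustering G f c) (a : V) (S : Finset V) (hS : ∀ x ∈ S, G.Adj a x ∧ f a = f x) :
    S.card < c := by
  classical
  have h1 : (insert a S).card = S.card + 1 := by
    apply card_insert_of_notMem
    intro ha
    exact G.loopless.irrefl _ (hS a ha).1
  have h2 : ((insert a S : Finset V) : Set V) ⊆ {u | (mono G f).Reachable a u} := by
    intro x hx
    rw [mem_coe, mem_insert] at hx
    rcases hx with rfl | hx
    · exact Reachable.refl _
    · have : (mono G f).Adj a x := hS x hx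
      exact this.reachable
  have h3 := Set.ncard_le_ncard h2 (Set.toFinite _)
  rw [Set.ncard_coe_finset, h1] at h3
  have h4 := h a
  omega

theorem eq_of_common {V C : Type} [Finite V] {G : SimpleGraph V} {f : V → C} {c : ℕ}
    (h : Clustering G f c) (a b : V) (z : Fin (2 * c) → V) (hz : Function.Injective z)
    (hza : ∀ i, G.Adj a (z i)) (hzb : ∀ i, G.Adj b (z i))
    (hc : ∀ i, f (z i) = f a ∨ f (z i) = f b) : f a = f b := by
  classical
  have hcpos : 0 < c := by
    have := card_lt_of_clustering h a ∅ (by simp)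
    simpa using this
  by_contra hne
  have h1 := card_lt_of_clustering h a ((univ.filter (fun i => f (z i) = f a)).image z) (by
    intro x hx
    obtain ⟨i, hi, rfl⟩ := mem_image.1 hx
    exact ⟨hza i, (mem_filter.1 hi).2.symm⟩)
  have h2 := card_lt_of_clustering h b ((univ.filter (fun i => ¬ f (z i) = f a)).image z) (by
    intro x hx
    obtain ⟨i, hi, rfl⟩ := mem_image.1 hx
    exact ⟨hzb i, ((hc i).resolve_left (mem_filter.1 hi).2).symm⟩)
  rw [card_image_of_injective _ hz] at h1 h2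
  have h3 := card_filter_add_card_filter_not (s := (univ : Finset (Fin (2 * c))))
    (fun i => f (z i) = f a)
  rw [card_univ, Fintype.card_fin] at h3
  omega

theorem three_colours : ∀ α a b x : Fin 3, a ≠ α → b ≠ α → x ≠ α →
    a = b ∨ (x = a ∨ x = b) := by
  decide

theorem not_clustering (c : ℕ) (f : VV c → Fin 3) : ¬ Clustering (GG c) f c := by
  classical
  intro h
  -- three apex vertices of the same colour
  obtain ⟨α, -, hα⟩ := Finset.exists_lt_card_fiber_of_mul_lt_card_of_maps_to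
    (s := (univ : Finset (Fin 7))) (t := (univ : Finset (Fin 3))) (f := fun a => f (Sum.inl a))
    (n := 2) (fun _ _ => mem_univ _) (by simp)
  obtain ⟨S, hS, hS3⟩ := exists_subset_card_eq (Nat.succ_le_of_lt hα)
  let e := (S.equivFinOfCardEq hS3).symm
  let T : Fin 3 ↪ Fin 7 := ⟨fun i => (e i).1, fun a b hab => e.injective (Subtype.ext hab)⟩
  have hT : ∀ i, f (Sum.inl (T i)) = α := fun i => (mem_filter.1 (hS (e i).2)).2
  -- a copy avoiding the colour `α`
  obtain ⟨m, hm⟩ : ∃ m : Fin (3 * c), ∀ q : QV c, f (Sum.inr ((T, m), q)) ≠ α := by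
    by_contra hcon
    push Not at hcon
    choose q hq using hcon
    have hcpos : 0 < c := by
      have := card_lt_of_clustering h (Sum.inl 0) ∅ (by simp)
      simpa using this
    obtain ⟨i, -, hi⟩ := Finset.exists_le_card_fiber_of_mul_le_card_of_maps_to
      (s := (univ : Finset (Fin (3 * c)))) (t := (univ : Finset (Fin 3)))
      (f := fun m => cl (q m)) (n := c) (fun _ _ => mem_univ _) ⟨0, mem_univ _⟩ (by simp)
    have h1 := card_lt_of_clustering h (Sum.inl (T i))
      ((univ.filter (fun m => cl (q m) = i)).image (fun m => Sum.inr ((T, m), q m))) (by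
        intro x hx
        obtain ⟨m, hm, rfl⟩ := mem_image.1 hx
        refine ⟨?_, ?_⟩
        · show T (cl (q m)) = T i
          rw [(mem_filter.1 hm).2]
        · rw [hT, hq])
    rw [card_image_of_injective] at h1
    · omega
    · intro m m' hmm
      have := Sum.inr.inj hmm
      exact (Prod.ext_iff.1 (Prod.ext_iff.1 this).1).2
  -- the copy
  let g : QV c → VV c := fun q => Sum.inr ((T, m), q)
  have hg : Function.Injective g := fun a b hab => (Prod.ext_iff.1 (Sum.inr.inj hab)).2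
  have hthree : ∀ a b x : QV c, f (g a) = f (g b) ∨ (f (g x) = f (g a) ∨ f (g x) = f (g b)) := by
    intro a b x
    exact three_colours α _ _ _ (hm a) (hm b) (hm x)
  have huv : f (g (.inl false)) = f (g (.inl true)) := by
    by_contra hne
    exact hne (eq_of_common h _ _ (fun i => g (.inr (.inr (.inl i))))
      (fun a b hab => by simpa using hg hab)
      (fun i => ⟨rfl, Or.inr trivial⟩) (fun i => ⟨rfl, Or.inr trivial⟩)
      (fun i => (hthree _ _ _).resolve_left hne))
  have hvw : ∀ j, f (g (.inl true)) = f (g (.inr (.inl j))) := by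
    intro j
    by_contra hne
    exact hne (eq_of_common h _ _ (fun i => g (.inr (.inr (.inr (j, i)))))
      (fun a b hab => by simpa using hg hab)
      (fun i => ⟨rfl, Or.inr rfl⟩) (fun i => ⟨rfl, Or.inr rfl⟩)
      (fun i => (hthree _ _ _).resolve_left hne))
  have h5 := card_lt_of_clustering h (g (.inl false))
    (univ.image (fun j : Fin c => g (.inr (.inl j)))) (by
      intro x hx
      obtain ⟨j, -, rfl⟩ := mem_image.1 hx
      exact ⟨⟨rfl, Or.inr rfl⟩, huv.trans (hvw j)⟩)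
  rw [card_image_of_injective _ (fun a b hab => by simpa using hg hab), card_univ,
    Fintype.card_fin] at h5
  exact lt_irrefl _ h5

/-- **Theorem.** For every `c` there is a finite triangle-free graph `G` with a set `A` of at most
`7` vertices such that `G - A` is planar and even has no `K_4` minor, and every 3-colouring of `G`
has a monochromatic component with more than `c` vertices. -/
theorem result : ∀ c : ℕ, ∃ (V : Type) (_ : Fintype V) (G : SimpleGraph V) (A : Finset V),
    A.card ≤ 7 ∧ G.CliqueFree 3 ∧ IsPlanar (G.induce {x | x ∉ A}) ∧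
      ¬ HasKMinor 4 (G.induce {x | x ∉ A}) ∧ ∀ f : V → Fin 3, ¬ Clustering G f c := by
  intro c
  exact ⟨VV c, inferInstance, GG c, apex c, (card_apex c).le, GG_cliqueFree c,
    (GG_TW2 c).isPlanar, (GG_TW2 c).no_K4, not_clustering c⟩

end Pool.Agent.Results.MP_01d970_co.SevenApex
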